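import Mathlib
import Pool.Agent.H759R2.Kad.Props

open scoped ComplexOrder InnerProductSpace ComplexConjugate
open Finset

noncomputable section

namespace H759R2.Kad

universe u v

namespace Ext

theorem norm_le_of_num {K : Type v} [NormedAddCommGroup K] [InnerProductSpace ℂ K]
    [CompleteSpace K] (T : K →L[ℂ] K) (hT : IsSelfAdjoint T) (M : ℝ) (hM : 0 ≤ M)
    (h : ∀ θ : K, ‖θ‖ = 1 → ‖⟪θ, T θ⟫_ℂ‖ ≤ M) : ‖T‖ ≤ M := by
  rw [ContinuousLinearMap.norm_eq_iSup_rayleighQuotient T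
    (ContinuousLinearMap.isSelfAdjoint_iff_isSymmetric.1 hT)]
  refine ciSup_le fun x => ?_
  by_cases hx : x = 0
  · subst hx
    simpa using hM
  have hx' : ‖x‖ ≠ 0 := norm_ne_zero_iff.2 hx
  have hc : ((‖x‖⁻¹ : ℝ) : ℂ) ≠ 0 := by
    simpa using hx
  rw [← T.rayleigh_smul x hc]
  set θ : K := ((‖x‖⁻¹ : ℝ) : ℂ) • x with hθ
  have h1 : ‖θ‖ = 1 := by
    rw [hθ, norm_smul, Complex.norm_real, norm_inv, norm_norm]
    field_simp
  rw [ContinuousLinearMap.rayleighQuotient, h1, one_pow, div_one,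
    ContinuousLinearMap.reApplyInnerSelf_apply]
  calc |RCLike.re ⟪T θ, θ⟫_ℂ| ≤ ‖⟪T θ, θ⟫_ℂ‖ := RCLike.abs_re_le_norm _
    _ = ‖⟪θ, T θ⟫_ℂ‖ := norm_inner_symm _ _
    _ ≤ M := h θ h1

end Ext

theorem prove_ext : St_ext.{u, v} := by
  intro B _ _ _ K _ _ _ π D hD M hM hx X
  have key : ∀ x ∈ unitary B, ‖D x‖ ≤ M := by
    intro x hxu
    obtain ⟨hs1, hs2⟩ := hxu
    have e1 : D (x * star x) = 0 := by
      rw [hs2]
      have h := hD.leib 1 1
      simpa using h
    have e2 : π x * star (D x) = D x * star (π x) := by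
      rw [hD.leib, hD.anti, map_star] at e1
      rw [mul_neg] at e1
      exact (neg_add_eq_zero.1 e1)
    have hsa : IsSelfAdjoint (D x * star (π x)) := by
      rw [IsSelfAdjoint, star_mul, star_star]
      exact e2
    have hn := Ext.norm_le_of_num _ hsa M hM (hx x ⟨hs1, hs2⟩)
    have e3 : D x = (D x * star (π x)) * π x := by
      rw [mul_assoc, ← map_star, ← map_mul, hs1, map_one, mul_one]
    have hpi : ‖π x‖ ≤ 1 := by
      have h1 : star (π x) * π x = 1 := by rw [← map_star, ← map_mul, hs1, map_one]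
      have h2 : ‖π x‖ * ‖π x‖ = ‖(1 : K →L[ℂ] K)‖ := by
        rw [← h1, CStarRing.norm_star_mul_self]
      have h3 : ‖(1 : K →L[ℂ] K)‖ ≤ 1 := ContinuousLinearMap.norm_id_le
      nlinarith [norm_nonneg (π x)]
    calc ‖D x‖ = ‖(D x * star (π x)) * π x‖ := by rw [← e3]
      _ ≤ ‖D x * star (π x)‖ * ‖π x‖ := norm_mul_le _ _
      _ ≤ M * 1 := mul_le_mul hn hpi (norm_nonneg _) hM
      _ = M := mul_one M
  obtain ⟨u, c, hX, hc⟩ := CStarAlgebra.exists_sum_four_unitary X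
  calc ‖D X‖ = ‖∑ i, c i • D (u i : B)‖ := by
        conv_lhs => rw [hX]
        rw [map_sum]
        simp_rw [map_smul]
    _ ≤ ∑ i, ‖c i • D (u i : B)‖ := norm_sum_le _ _
    _ ≤ ∑ i : Fin 4, ‖X‖ / 2 * M := by
        refine Finset.sum_le_sum fun i _ => ?_
        rw [norm_smul]
        exact mul_le_mul (hc i) (key _ (u i).2) (norm_nonneg _) (by positivity)
    _ = 2 * M * ‖X‖ := by
        simp
        ring

end H759R2.Kad
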